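import Pool.Agent.Run7.h619.PR.Iface2

/-!
# Pieces PSH, ASY, MET of the project of helper619 (MP_4a0782_an), by helper973
-/

set_option autoImplicit false

open scoped Topology
open Filter Set Metric

universe w

namespace Run7.h973.PR

open Run7.h619.PR Run7.h619.AA

/-- an orbit is given by the iterates of its point at time zero -/
theorem orbit_nat {B : Type*} {g : B → B} {y : ℤ → B} (hy : ∀ i, g (y i) = y (i + 1)) (i : ℤ)
    (k : ℕ) : g^[k] (y i) = y (i + k) := by
  induction k with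
  | zero => simp
  | succ k ih =>
    rw [Function.iterate_succ_apply', ih, hy]
    push_cast
    ring_nf

theorem t_PSH : S_PSH.{w} := by
  intro B _ g hexp hsh η hη
  obtain ⟨α, hα, hexp⟩ := hexp
  obtain ⟨δ, hδ, hsh⟩ := hsh (min η (α / 2)) (lt_min hη (by linarith))
  refine ⟨δ, hδ, fun m w hm hw hps => ?_⟩
  have hm0 : (0 : ℤ) < m := by exact_mod_cast hm
  obtain ⟨W, hW⟩ : ∃ W : ℤ → B, W = fun i => w (i % (m : ℤ)).toNat := ⟨_, rfl⟩
  have hWi : ∀ i, W i = w (i % (m : ℤ)).toNat := fun i => by rw [hW]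
  have hWper : ∀ i, W (i + m) = W i := fun i => by rw [hWi, hWi, Int.add_emod_right]
  have hWps : ∀ i, dist (g (W i)) (W (i + 1)) < δ := by
    intro i
    have h1 := Int.emod_nonneg i hm0.ne'
    have h2 := Int.emod_lt_of_pos i hm0
    obtain ⟨r, hr⟩ : ∃ r : ℕ, (r : ℤ) = i % (m : ℤ) := ⟨(i % (m : ℤ)).toNat, Int.toNat_of_nonneg h1⟩
    have hr' : (i % (m : ℤ)).toNat = r := by rw [← hr]; rfl
    have hrm : r < m := by omega
    obtain ⟨q, hq⟩ : ∃ q : ℤ, q = i / (m : ℤ) := ⟨_, rfl⟩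
    have e3 := Int.emod_add_mul_ediv i m
    rw [← hr, ← hq] at e3
    have h3 : W (i + 1) = w (r + 1) := by
      rw [hWi]
      by_cases hcase : r + 1 < m
      · have h4 : (i + 1) % (m : ℤ) = ((r + 1 : ℕ) : ℤ) := by
          rw [← e3, show (r : ℤ) + m * q + 1 = (r + 1 : ℤ) + m * q by ring,
            Int.add_mul_emod_self_left, Int.emod_eq_of_lt (by omega) (by omega)]
          push_cast
          rfl
        rw [h4]
        rfl
      · have hrm' : r + 1 = m := by omega
        have h4 : (i + 1) % (m : ℤ) = 0 := by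
          rw [← e3, show (r : ℤ) + m * q + 1 = 0 + m * (q + 1) by
            have : (r : ℤ) + 1 = m := by omega
            linear_combination this,
            Int.add_mul_emod_self_left, Int.zero_emod]
        rw [h4, hrm', hw]
        rfl
    rw [h3, hWi, hr']
    exact hps r hrm
  obtain ⟨y, hy, hyW⟩ := hsh W hWps
  have h5 : y ((0 : ℤ) + m) = y 0 := by
    refine hexp (fun i => y (i + m)) y (fun i => ?_) hy fun i => ?_
    · rw [hy]
      ring_nf
    · have h6 := hyW (i + m)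
      have h7 := hyW i
      rw [hWper] at h6
      have h8 := dist_triangle_right (y (i + m)) (y i) (W i)
      have h9 : min η (α / 2) ≤ α / 2 := min_le_right _ _
      linarith
  refine ⟨y 0, ?_, fun i hi => ?_⟩
  · rw [orbit_nat hy, h5]
  · rw [orbit_nat hy, zero_add]
    have h6 := hyW i
    have h7 : W i = w i := by
      rw [hWi, Int.emod_eq_of_lt (by omega) (by omega)]
      rfl
    rw [h7] at h6
    exact lt_of_lt_of_le h6 (min_le_left _ _)

theorem asy_aux {B : Type*} [MetricSpace B] [CompactSpace B] {g : B → B} (hg : Continuous g)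
    {α : ℝ} (hexp : ∀ x y : ℤ → B, (∀ i, g (x i) = x (i + 1)) → (∀ i, g (y i) = y (i + 1)) →
      (∀ i, dist (x i) (y i) ≤ α) → x 0 = y 0) {x y : ℤ → B}
    (hx : ∀ i, g (x i) = x (i + 1)) (hy : ∀ i, g (y i) = y (i + 1)) (l : Filter ℤ)
    (hl : ∀ j : ℤ, ∀ᶠ i in l, dist (x (i + j)) (y (i + j)) ≤ α) :
    Tendsto (fun i : ℤ => dist (x i) (y i)) l (𝓝 0) := by
  rw [Metric.tendsto_nhds]
  intro ε hε
  by_contra hcon
  have hfreq : ∃ᶠ i in l, ε ≤ dist (x i) (y i) := by
    rw [Filter.not_eventually] at hcon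
    refine hcon.mono fun i hi => ?_
    rw [Real.dist_eq, sub_zero, abs_of_nonneg dist_nonneg, not_lt] at hi
    exact hi
  have hne : NeBot (l ⊓ 𝓟 {i | ε ≤ dist (x i) (y i)}) := Filter.frequently_mem_iff_neBot.1 hfreq
  obtain ⟨U, hU⟩ := Ultrafilter.exists_le (l ⊓ 𝓟 {i | ε ≤ dist (x i) (y i)})
  have hUl : (U : Filter ℤ) ≤ l := hU.trans inf_le_left
  have hUε : ∀ᶠ i in (U : Filter ℤ), ε ≤ dist (x i) (y i) :=
    (hU.trans inf_le_right) (Filter.mem_principal_self _)
  have hlim : ∀ (v : ℤ → B) (j : ℤ), ∃ p, Tendsto (fun i => v (i + j)) U (𝓝 p) := by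
    intro v j
    obtain ⟨p, -, hp⟩ := isCompact_univ.ultrafilter_le_nhds (U.map fun i => v (i + j))
      (by simp)
    exact ⟨p, hp⟩
  choose X hX using hlim x
  choose Y hY using hlim y
  have horb : ∀ (v : ℤ → B) (V : ℤ → B), (∀ i, g (v i) = v (i + 1)) →
      (∀ j, Tendsto (fun i => v (i + j)) U (𝓝 (V j))) → ∀ j, g (V j) = V (j + 1) := by
    intro v V hv hV j
    have h1 : Tendsto (fun i => g (v (i + j))) U (𝓝 (g (V j))) :=
      (hg.tendsto _).comp (hV j)
    have h2 : (fun i => g (v (i + j))) = fun i => v (i + (j + 1)) := by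
      funext i
      rw [hv, add_assoc]
    rw [h2] at h1
    exact tendsto_nhds_unique h1 (hV (j + 1))
  have hXY := hexp X Y (horb x X hx hX) (horb y Y hy hY) fun j =>
    le_of_tendsto ((hX j).dist (hY j)) ((hl j).filter_mono hUl)
  have h0 : ε ≤ dist (X 0) (Y 0) := by
    refine ge_of_tendsto ((hX 0).dist (hY 0)) ?_
    simpa using hUε
  rw [hXY, dist_self] at h0
  linarith

theorem t_ASY : S_ASY.{w} := by
  intro B _ _ g hg hexp
  obtain ⟨α, hα, hexp⟩ := hexp
  refine ⟨α, hα, fun x y hx hy => ⟨fun h => ?_, fun h => ?_⟩⟩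
  · refine asy_aux hg hexp hx hy atTop fun j => ?_
    filter_upwards [eventually_ge_atTop (-j)] with i hi
    exact h _ (by omega)
  · refine asy_aux hg hexp hx hy atBot fun j => ?_
    filter_upwards [eventually_le_atBot (-j)] with i hi
    exact h _ (by omega)

/-- pseudo-orbits are close to orbits for bounded times -/
theorem pseudo {B : Type*} [MetricSpace B] [CompactSpace B] {g : B → B} (hg : Continuous g)
    (j : ℕ) : ∀ ε : ℝ, 0 < ε → ∃ δ : ℝ, 0 < δ ∧ ∀ w : ℤ → B,
      (∀ i, dist (g (w i)) (w (i + 1)) < δ) → ∀ i, dist (g^[j] (w i)) (w (i + j)) < ε := by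
  induction j with
  | zero =>
    intro ε hε
    refine ⟨1, one_pos, fun w _ i => ?_⟩
    simpa using hε
  | succ j ih =>
    intro ε hε
    have hu := CompactSpace.uniformContinuous_of_continuous hg
    rw [Metric.uniformContinuous_iff] at hu
    obtain ⟨ε', hε', hu⟩ := hu (ε / 2) (by linarith)
    obtain ⟨δ, hδ, h⟩ := ih ε' hε'
    refine ⟨min δ (ε / 2), lt_min hδ (by linarith), fun w hw i => ?_⟩
    have h1 := hu (h w (fun i => lt_of_lt_of_le (hw i) (min_le_left _ _)) i)
    have h2 := lt_of_lt_of_le (hw (i + j)) (min_le_right _ _)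
    rw [Function.iterate_succ_apply']
    have h3 : i + ((j + 1 : ℕ) : ℤ) = i + j + 1 := by push_cast; ring
    rw [h3]
    have h4 := dist_triangle (g (g^[j] (w i))) (g (w (i + j))) (w (i + j + 1))
    linarith

/-- the same for all times up to `N` -/
theorem pseudo_le {B : Type*} [MetricSpace B] [CompactSpace B] {g : B → B} (hg : Continuous g)
    (N : ℕ) {ε : ℝ} (hε : 0 < ε) : ∃ δ : ℝ, 0 < δ ∧ ∀ w : ℤ → B,
      (∀ i, dist (g (w i)) (w (i + 1)) < δ) → ∀ j ≤ N, ∀ i,
        dist (g^[j] (w i)) (w (i + j)) < ε := by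
  induction N with
  | zero =>
    obtain ⟨δ, hδ, h⟩ := pseudo hg 0 ε hε
    refine ⟨δ, hδ, fun w hw j hj i => ?_⟩
    obtain rfl : j = 0 := by omega
    exact h w hw i
  | succ N ih =>
    obtain ⟨δ, hδ, h⟩ := ih
    obtain ⟨δ', hδ', h'⟩ := pseudo hg (N + 1) ε hε
    refine ⟨min δ δ', lt_min hδ hδ', fun w hw j hj i => ?_⟩
    rcases Nat.lt_or_ge j (N + 1) with hj' | hj'
    · exact h w (fun i => lt_of_lt_of_le (hw i) (min_le_left _ _)) j (by omega) i
    · obtain rfl : j = N + 1 := by omega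
      exact h' w (fun i => lt_of_lt_of_le (hw i) (min_le_right _ _)) i

/-- equicontinuity of finitely many iterates -/
theorem equi {B : Type*} [MetricSpace B] [CompactSpace B] {g : B → B} (hg : Continuous g)
    (N : ℕ) {ε : ℝ} (hε : 0 < ε) : ∃ δ : ℝ, 0 < δ ∧ ∀ a b : B, dist a b < δ → ∀ j ≤ N,
      dist (g^[j] a) (g^[j] b) < ε := by
  induction N with
  | zero =>
    refine ⟨ε, hε, fun a b hab j hj => ?_⟩
    obtain rfl : j = 0 := by omega
    exact hab
  | succ N ih =>
    obtain ⟨δ, hδ, h⟩ := ih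
    have hu := CompactSpace.uniformContinuous_of_continuous (hg.iterate (N + 1))
    rw [Metric.uniformContinuous_iff] at hu
    obtain ⟨δ', hδ', hu⟩ := hu ε hε
    refine ⟨min δ δ', lt_min hδ hδ', fun a b hab j hj => ?_⟩
    rcases Nat.lt_or_ge j (N + 1) with hj' | hj'
    · exact h a b (lt_of_lt_of_le hab (min_le_left _ _)) j (by omega)
    · obtain rfl : j = N + 1 := by omega
      exact hu (lt_of_lt_of_le hab (min_le_right _ _))

theorem t_MET : S_MET.{w} := by
  intro B _ _ g hg hyp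
  obtain ⟨N, m, e, hN, he, hinj, ⟨α, hα, hexp⟩, hsh⟩ := hyp
  have hU1 : ∀ ε : ℝ, 0 < ε → ∃ δ : ℝ, 0 < δ ∧ ∀ a b : B, dist a b < δ → ‖e a - e b‖ < ε := by
    intro ε hε
    have hu := CompactSpace.uniformContinuous_of_continuous he
    rw [Metric.uniformContinuous_iff] at hu
    obtain ⟨δ, hδ, h⟩ := hu ε hε
    exact ⟨δ, hδ, fun a b hab => by rw [← dist_eq_norm]; exact h hab⟩
  have hU2 : ∀ ε : ℝ, 0 < ε → ∃ δ : ℝ, 0 < δ ∧ ∀ a b : B, ‖e a - e b‖ < δ → dist a b < ε := by
    intro ε hε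
    obtain ⟨K, hKd, hK⟩ : ∃ K : Set (B × B), (∀ q, q ∈ K ↔ ε ≤ dist q.1 q.2) ∧ IsCompact K :=
      ⟨{q : B × B | ε ≤ dist q.1 q.2}, fun q => Iff.rfl,
        (isClosed_le continuous_const (continuous_fst.dist continuous_snd)).isCompact⟩
    by_cases hne : K.Nonempty
    · have hc : Continuous fun q : B × B => ‖e q.1 - e q.2‖ :=
        ((he.comp continuous_fst).sub (he.comp continuous_snd)).norm
      obtain ⟨q, hq, hmin⟩ := hK.exists_isMinOn hne hc.continuousOn
      have hpos : 0 < ‖e q.1 - e q.2‖ := by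
        rw [norm_pos_iff, sub_ne_zero]
        intro h
        have h1 := hinj h
        have h2 : ε ≤ dist q.1 q.2 := (hKd q).1 hq
        rw [h1, dist_self] at h2
        linarith
      refine ⟨_, hpos, fun a b hab => ?_⟩
      by_contra hcon
      have h1 : ε ≤ dist a b := not_lt.1 hcon
      have h2 := isMinOn_iff.1 hmin (a, b) ((hKd (a, b)).2 h1)
      have h3 : ‖e q.1 - e q.2‖ ≤ ‖e a - e b‖ := h2
      linarith
    · refine ⟨1, one_pos, fun a b _ => ?_⟩
      by_contra hcon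
      have h1 : ε ≤ dist a b := not_lt.1 hcon
      exact hne ⟨(a, b), (hKd (a, b)).2 h1⟩
  have hN0 : (0 : ℤ) < N := by exact_mod_cast hN
  refine ⟨?_, ?_⟩
  · -- expansivity
    obtain ⟨α', hα', h1⟩ := hU1 α hα
    refine ⟨α' / 2, by linarith, fun x y hx hy hxy => ?_⟩
    have h2 := hexp (fun i => x (N * i)) (fun i => y (N * i))
      (fun i => by rw [orbit_nat hx]; congr 1; ring) (fun i => by rw [orbit_nat hy]; congr 1; ring)
      (fun i => (h1 _ _ (lt_of_le_of_lt (hxy _) (by linarith))).le)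
    simpa using h2
  · -- shadowing
    intro η hη
    obtain ⟨η1, hη1, h1⟩ := equi hg N (ε := η / 2) (by linarith)
    obtain ⟨η2, hη2, h2⟩ := hU2 η1 hη1
    obtain ⟨δ1, hδ1, h3⟩ := hsh η2 hη2
    obtain ⟨δ2, hδ2, h4⟩ := hU1 δ1 hδ1
    obtain ⟨δ, hδ, h5⟩ := pseudo_le hg N (ε := min δ2 (η / 2)) (lt_min hδ2 (by linarith))
    refine ⟨δ, hδ, fun w hw => ?_⟩
    obtain ⟨y', hy', hyw⟩ := h3 (fun i => w (N * i)) (fun i => by
      refine h4 _ _ ?_
      have h6 := lt_of_lt_of_le (h5 w hw N le_rfl (N * i)) (min_le_left _ _)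
      have h7 : (N : ℤ) * i + N = N * (i + 1) := by ring
      rwa [h7] at h6)
    refine ⟨fun t => g^[(t % (N : ℤ)).toNat] (y' (t / (N : ℤ))), fun t => ?_, fun t => ?_⟩
    · have e1 := Int.emod_nonneg t hN0.ne'
      have e2 := Int.emod_lt_of_pos t hN0
      have e3 := Int.emod_add_mul_ediv t N
      obtain ⟨r, hr⟩ : ∃ r : ℕ, (r : ℤ) = t % (N : ℤ) :=
        ⟨(t % (N : ℤ)).toNat, Int.toNat_of_nonneg e1⟩
      have hr' : (t % (N : ℤ)).toNat = r := by rw [← hr]; rfl
      obtain ⟨q, hq⟩ : ∃ q : ℤ, q = t / (N : ℤ) := ⟨_, rfl⟩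
      rw [← hr, ← hq] at e3
      have hrN : r < N := by omega
      change g (g^[(t % (N : ℤ)).toNat] (y' (t / (N : ℤ)))) =
        g^[((t + 1) % (N : ℤ)).toNat] (y' ((t + 1) / (N : ℤ)))
      rw [hr', ← hq, ← Function.iterate_succ_apply' g r]
      by_cases hcase : r + 1 < N
      · have h6 : (t + 1) / (N : ℤ) = q := by
          rw [← e3, show (r : ℤ) + N * q + 1 = (r + 1 : ℤ) + N * q by ring,
            Int.add_mul_ediv_left _ _ hN0.ne', Int.ediv_eq_zero_of_lt (by omega) (by omega), zero_add]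
        have h7 : (t + 1) % (N : ℤ) = ((r + 1 : ℕ) : ℤ) := by
          rw [← e3, show (r : ℤ) + N * q + 1 = (r + 1 : ℤ) + N * q by ring,
            Int.add_mul_emod_self_left, Int.emod_eq_of_lt (by omega) (by omega)]
          push_cast
          rfl
        rw [h6, h7]
        rfl
      · have hrN' : r + 1 = N := by omega
        have h6 : (t + 1) / (N : ℤ) = q + 1 := by
          rw [← e3, show (r : ℤ) + N * q + 1 = 0 + N * (q + 1) by
            have : (r : ℤ) + 1 = N := by omega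
            linear_combination this,
            Int.add_mul_ediv_left _ _ hN0.ne', Int.zero_ediv, zero_add]
        have h7 : (t + 1) % (N : ℤ) = 0 := by
          rw [← e3, show (r : ℤ) + N * q + 1 = 0 + N * (q + 1) by
            have : (r : ℤ) + 1 = N := by omega
            linear_combination this,
            Int.add_mul_emod_self_left, Int.zero_emod]
        rw [h6, h7, ← hy' q, Nat.succ_eq_add_one, hrN']
        rfl
    · have e1 := Int.emod_nonneg t hN0.ne'
      have e2 := Int.emod_lt_of_pos t hN0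
      have e3 := Int.emod_add_mul_ediv t N
      obtain ⟨r, hr⟩ : ∃ r : ℕ, (r : ℤ) = t % (N : ℤ) :=
        ⟨(t % (N : ℤ)).toNat, Int.toNat_of_nonneg e1⟩
      have hr' : (t % (N : ℤ)).toNat = r := by rw [← hr]; rfl
      obtain ⟨q, hq⟩ : ∃ q : ℤ, q = t / (N : ℤ) := ⟨_, rfl⟩
      rw [← hr, ← hq] at e3
      have hrN : r ≤ N := by omega
      change dist (g^[(t % (N : ℤ)).toNat] (y' (t / (N : ℤ)))) (w t) < η
      rw [hr', ← hq]
      have h6 := h1 _ _ (h2 _ _ (hyw q)) r hrN
      have h7 := lt_of_lt_of_le (h5 w hw r hrN (N * q)) (min_le_right _ _)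
      have h8 : (N : ℤ) * q + r = t := by linarith
      rw [h8] at h7
      have h9 := dist_triangle (g^[r] (y' q)) (g^[r] (w (N * q))) (w t)
      linarith

end Run7.h973.PR
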