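import Pool.Agent.Run7.h994.PR.Stm
import Pool.Agent.Run7.h704.BPD.SQ

/-!
# Project PR, piece SQ2: the second moment of the truncated singular series of the pairs `F + a`, `F + a + h`

Adapted from `Pool/Agent/Run7/h704/BPD/SQ.lean` (helper704) and `Pool/Agent/Run7/h136/BP/SQ.lean` (helper136).
-/

set_option autoImplicit false

namespace Run7.h973.PR

open Finset Filter Topology Polynomial Run7.h994.PR
open Pool.Agent.H373R2.T7 (pz Vz mem_pz Vz_pos)
open Pool.Agent.TH204.WR (rho prod_nonneg' rho_le rho_le_deg')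
open Run7.h704.BPD (crt_prod prod_anti sum_Icc_le)

theorem Q_eval (F : ℤ[X]) (a b x : ℤ) : (Q F a b).eval x = (F.eval x + a) * (F.eval x + b) := by
  simp [Q]

theorem r2_eq (F : ℤ[X]) (a b : ℤ) (p : ℕ) :
    r2 F a b p = #((range p).filter (fun x : ℕ => (p : ℤ) ∣ (F.eval (x : ℤ) + a) * (F.eval (x : ℤ) + b))) := by
  unfold r2 rho
  congr 1
  refine filter_congr fun x _ => ?_
  rw [Q_eval, add_zero]

theorem r2_le (F : ℤ[X]) (a b : ℤ) (p : ℕ) : r2 F a b p ≤ p := rho_le _ _ _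

theorem r2_le_add (F : ℤ[X]) (a b : ℤ) (p : ℕ) (hp : p.Prime) :
    r2 F a b p ≤ rho F a p + rho F b p := by
  classical
  rw [r2_eq]
  refine le_trans (card_le_card ?_) (card_union_le _ _)
  intro x hx
  rw [mem_filter] at hx
  rw [mem_union, mem_filter, mem_filter]
  rcases (Nat.prime_iff_prime_int.1 hp).dvd_or_dvd hx.2 with h | h
  · exact Or.inl ⟨hx.1, h⟩
  · exact Or.inr ⟨hx.1, h⟩

theorem r2_per (F : ℤ[X]) (h p : ℕ) :
    Function.Periodic (fun a : ℕ => r2 F (a : ℤ) ((a + h : ℕ) : ℤ) p) p := by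
  intro a
  simp only [r2_eq]
  congr 1
  refine filter_congr fun x _ => ?_
  apply dvd_iff_dvd_of_dvd_sub
  refine ⟨(F.eval (x : ℤ) + a) + (F.eval (x : ℤ) + a + h) + p, ?_⟩
  push_cast
  ring

/-- one residue class -/
theorem card_class (p : ℕ) (hp : 0 < p) (m : ℤ) :
    #((range p).filter (fun a : ℕ => (p : ℤ) ∣ m + a)) = 1 := by
  rw [card_eq_one]
  refine ⟨((-m) % p).toNat, ?_⟩
  have hp0 : (0 : ℤ) < p := by exact_mod_cast hp
  have h3 := Int.emod_nonneg (-m) hp0.ne'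
  have h4 := Int.emod_lt_of_pos (-m) hp0
  have h5 := Int.emod_add_mul_ediv (-m) p
  ext a
  rw [mem_filter, mem_range, mem_singleton]
  constructor
  · rintro ⟨h1, h2⟩
    have h6 : (a : ℤ) = (-m) % p := by
      have h7 : ((p : ℤ)) ∣ a - (-m) % p := by
        obtain ⟨k, hk⟩ := h2
        refine ⟨k + (-m) / p, ?_⟩
        linear_combination hk - h5
      have h8 : (a : ℤ) - (-m) % p = 0 := by
        refine Int.eq_zero_of_abs_lt_dvd h7 ?_
        rw [abs_lt]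
        constructor <;> omega
      omega
    omega
  · rintro rfl
    refine ⟨by omega, ?_⟩
    rw [Int.toNat_of_nonneg h3]
    refine ⟨-((-m) / p), ?_⟩
    linear_combination h5

theorem card_two (p : ℕ) (hp : p.Prime) (h : ℕ) (m : ℤ) :
    #((range p).filter (fun a : ℕ => (p : ℤ) ∣ (m + (a : ℤ)) * (m + ((a + h : ℕ) : ℤ)))) = nu h p := by
  classical
  have h1 : (range p).filter (fun a : ℕ => (p : ℤ) ∣ (m + (a : ℤ)) * (m + ((a + h : ℕ) : ℤ))) =
      (range p).filter (fun a : ℕ => (p : ℤ) ∣ m + a) ∪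
        (range p).filter (fun a : ℕ => (p : ℤ) ∣ (m + h) + a) := by
    ext a
    rw [mem_union, mem_filter, mem_filter, mem_filter]
    have e1 : m + ((a + h : ℕ) : ℤ) = (m + h) + a := by
      push_cast
      ring
    rw [e1, (Nat.prime_iff_prime_int.1 hp).dvd_mul]
    tauto
  rw [h1]
  unfold nu
  split_ifs with hh
  · have h2 : (range p).filter (fun a : ℕ => (p : ℤ) ∣ (m + h) + a) =
        (range p).filter (fun a : ℕ => (p : ℤ) ∣ m + a) := by
      refine filter_congr fun a _ => ?_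
      apply dvd_iff_dvd_of_dvd_sub
      obtain ⟨k, hk⟩ := hh
      refine ⟨k, ?_⟩
      rw [hk]
      push_cast
      ring
    rw [h2, union_self, card_class p hp.pos]
  · rw [card_union_of_disjoint, card_class p hp.pos, card_class p hp.pos]
    rw [disjoint_left]
    intro a h2 h3
    rw [mem_filter] at h2 h3
    apply hh
    have h4 : (p : ℤ) ∣ (h : ℤ) := by
      have := dvd_sub h3.2 h2.2
      have e1 : m + (h : ℤ) + a - (m + a) = h := by ring
      rwa [e1] at this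
    exact_mod_cast h4

theorem r2_sum (F : ℤ[X]) (h p : ℕ) (hp : p.Prime) :
    ∑ a ∈ range p, (r2 F (a : ℤ) ((a + h : ℕ) : ℤ) p : ℝ) = p * nu h p := by
  classical
  have h1 : ∑ a ∈ range p, r2 F (a : ℤ) ((a + h : ℕ) : ℤ) p = p * nu h p := by
    simp only [r2_eq, card_filter]
    rw [sum_comm]
    have h2 : ∀ x ∈ range p, ∑ a ∈ range p, (if (p : ℤ) ∣ (F.eval (x : ℤ) + (a : ℤ)) *
        (F.eval (x : ℤ) + ((a + h : ℕ) : ℤ)) then 1 else 0) = nu h p := by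
      intro x _
      rw [← card_filter]
      exact card_two p hp h _
    rw [sum_congr rfl h2, sum_const, card_range, smul_eq_mul]
  exact_mod_cast h1

/-- the local factor -/
noncomputable def lf (F : ℤ[X]) (h p : ℕ) (a : ℕ) : ℝ :=
  ((1 - (r2 F (a : ℤ) ((a + h : ℕ) : ℤ) p : ℝ) / p) / (1 - 1 / (p : ℝ)) ^ 2) ^ 2

theorem lf_nonneg (F : ℤ[X]) (h p : ℕ) (a : ℕ) : 0 ≤ lf F h p a := sq_nonneg _

theorem local_bound (F : ℤ[X]) (hl : F.leadingCoeff ≠ 0) (hd : 1 ≤ F.natDegree) (h p : ℕ)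
    (hp : p.Prime) (hlp : F.leadingCoeff.natAbs < p) :
    ∑ a ∈ range p, lf F h p a ≤ p * ((1 + 64 * F.natDegree / (p : ℝ) ^ 2) *
      (1 + if p ∣ h then 64 * F.natDegree / (p : ℝ) else 0)) := by
  have hp2 : (2 : ℝ) ≤ p := by exact_mod_cast hp.two_le
  have hp0 : (0 : ℝ) < p := by linarith
  have hS := r2_sum F h p hp
  obtain ⟨d, hdd⟩ : ∃ d : ℝ, d = (F.natDegree : ℝ) := ⟨_, rfl⟩
  have hd1 : (1 : ℝ) ≤ d := by rw [hdd]; exact_mod_cast hd
  rw [← hdd]
  obtain ⟨ν, hν⟩ : ∃ ν : ℝ, ν = (nu h p : ℝ) := ⟨_, rfl⟩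
  rw [← hν] at hS
  -- the sum of the squares
  have h1 : ∀ a ∈ range p, (1 - (r2 F (a : ℤ) ((a + h : ℕ) : ℤ) p : ℝ) / p) ^ 2 ≤
      1 - (r2 F (a : ℤ) ((a + h : ℕ) : ℤ) p : ℝ) * (2 / p - 2 * d / p ^ 2) := by
    intro a _
    obtain ⟨R, hR⟩ : ∃ R : ℝ, R = (r2 F (a : ℤ) ((a + h : ℕ) : ℤ) p : ℝ) := ⟨_, rfl⟩
    have h2 : R ≤ 2 * d := by
      have e1 := r2_le_add F (a : ℤ) ((a + h : ℕ) : ℤ) p hp
      have e2 := rho_le_deg' F (a : ℤ) p hp hd hlp hl
      have e3 := rho_le_deg' F ((a + h : ℕ) : ℤ) p hp hd hlp hl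
      rw [hR, hdd]
      have e4 : r2 F (a : ℤ) ((a + h : ℕ) : ℤ) p ≤ 2 * F.natDegree := by omega
      exact_mod_cast e4
    have h3 : 0 ≤ R := by rw [hR]; exact Nat.cast_nonneg _
    rw [← hR]
    have h4 : R ^ 2 ≤ 2 * d * R := by nlinarith
    have h5 : R ^ 2 / p ^ 2 ≤ 2 * d * R / p ^ 2 := by gcongr
    calc (1 - R / p) ^ 2 = 1 - 2 * R / p + R ^ 2 / p ^ 2 := by ring
      _ ≤ 1 - 2 * R / p + 2 * d * R / p ^ 2 := by linarith
      _ = _ := by ring
  have h2 : ∑ a ∈ range p, (1 - (r2 F (a : ℤ) ((a + h : ℕ) : ℤ) p : ℝ) / p) ^ 2 ≤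
      (p : ℝ) - 2 * ν + 2 * d * ν / p := by
    refine (sum_le_sum h1).trans (le_of_eq ?_)
    rw [sum_sub_distrib, ← sum_mul, sum_const, card_range, nsmul_eq_mul, mul_one, hS]
    field_simp
    ring
  have h3 : ∑ a ∈ range p, lf F h p a =
      (∑ a ∈ range p, (1 - (r2 F (a : ℤ) ((a + h : ℕ) : ℤ) p : ℝ) / p) ^ 2) /
        (1 - 1 / (p : ℝ)) ^ 4 := by
    rw [sum_div]
    refine sum_congr rfl fun a _ => ?_
    rw [lf, div_pow, ← pow_mul]
  rw [h3]
  obtain ⟨s, hs⟩ : ∃ s : ℝ, s = 1 / (p : ℝ) := ⟨_, rfl⟩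
  have hs0 : 0 < s := by rw [hs]; positivity
  have hs1 : s ≤ 1 / 2 := by
    rw [hs]
    exact one_div_le_one_div_of_le (by norm_num) hp2
  have hps : (p : ℝ) * s = 1 := by rw [hs]; field_simp
  have h4 : 0 < 1 - s := by linarith
  rw [← hs, div_le_iff₀ (by positivity)]
  refine h2.trans ?_
  have e1 : (p : ℝ) - 2 * ν + 2 * d * ν / p = p * (1 - 2 * ν * s + 2 * d * ν * s ^ 2) := by
    rw [hs]
    field_simp
  have e2 : 64 * d / (p : ℝ) ^ 2 = 64 * d * s ^ 2 := by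
    rw [hs]
    field_simp
  have e3 : 64 * d / (p : ℝ) = 64 * d * s := by
    rw [hs]
    field_simp
  rw [e1, e2, e3, mul_assoc (p : ℝ)]
  refine mul_le_mul_of_nonneg_left ?_ hp0.le
  have h16 : 1 / 16 ≤ (1 - s) ^ 4 := by
    have h5 : (1 / 2 : ℝ) ^ 4 ≤ (1 - s) ^ 4 := pow_le_pow_left₀ (by norm_num) (by linarith) 4
    norm_num at h5
    linarith
  have hs2 : s ^ 2 ≤ s / 2 := by nlinarith
  have hs3 : s ^ 3 ≤ s ^ 2 / 2 := by nlinarith [sq_nonneg s]
  have hs4 : 0 ≤ s ^ 4 := by positivity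
  have hexp : (1 - s) ^ 4 = 1 - 4 * s + 6 * s ^ 2 - 4 * s ^ 3 + s ^ 4 := by ring
  unfold nu at hν
  by_cases hh : p ∣ h
  · rw [if_pos hh] at hν ⊢
    push_cast at hν
    rw [hν]
    have k1 : 1 - 2 * 1 * s + 2 * d * 1 * s ^ 2 ≤ (1 - s) ^ 4 + (2 + d) * s := by
      have : d * s ^ 2 ≤ d * (s / 2) := by gcongr
      nlinarith
    have k2 : (2 + d) * s ≤ 64 * d * s * (1 - s) ^ 4 := by
      have : (64 * d * s) * (1 / 16) ≤ (64 * d * s) * (1 - s) ^ 4 := by gcongr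
      nlinarith
    have k3 : 0 ≤ 64 * d * s ^ 2 * (1 + 64 * d * s) * (1 - s) ^ 4 := by positivity
    have k4 : (1 + 64 * d * s ^ 2) * (1 + 64 * d * s) * (1 - s) ^ 4 =
        (1 - s) ^ 4 + 64 * d * s * (1 - s) ^ 4 + 64 * d * s ^ 2 * (1 + 64 * d * s) * (1 - s) ^ 4 := by
      ring
    rw [k4]
    linarith
  · rw [if_neg hh] at hν ⊢
    push_cast at hν
    rw [hν, add_zero, mul_one]
    have k1 : 1 - 2 * 2 * s + 2 * d * 2 * s ^ 2 ≤ (1 - s) ^ 4 + 4 * d * s ^ 2 := by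
      nlinarith
    have k2 : 4 * d * s ^ 2 ≤ 64 * d * s ^ 2 * (1 - s) ^ 4 := by
      have : (64 * d * s ^ 2) * (1 / 16) ≤ (64 * d * s ^ 2) * (1 - s) ^ 4 := by gcongr
      linarith
    have k4 : (1 + 64 * d * s ^ 2) * (1 - s) ^ 4 = (1 - s) ^ 4 + 64 * d * s ^ 2 * (1 - s) ^ 4 := by
      ring
    rw [k4]
    linarith

theorem local_trivial (F : ℤ[X]) (h p : ℕ) (hp : p.Prime) :
    ∑ a ∈ range p, lf F h p a ≤ (p : ℝ) * 16 := by
  have hp2 : (2 : ℝ) ≤ p := by exact_mod_cast hp.two_le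
  have hp0 : (0 : ℝ) < p := by linarith
  have h4 : 1 / 2 ≤ 1 - 1 / (p : ℝ) := by
    have : 1 / (p : ℝ) ≤ 1 / 2 := one_div_le_one_div_of_le (by norm_num) hp2
    linarith
  have h44 : 1 / 4 ≤ (1 - 1 / (p : ℝ)) ^ 2 := by nlinarith
  have : ∀ a ∈ range p, lf F h p a ≤ 16 := by
    intro a _
    have h1 : (r2 F (a : ℤ) ((a + h : ℕ) : ℤ) p : ℝ) ≤ p := by exact_mod_cast r2_le F _ _ p
    have h2 : 0 ≤ 1 - (r2 F (a : ℤ) ((a + h : ℕ) : ℤ) p : ℝ) / p := by
      rw [sub_nonneg, div_le_one hp0]; exact h1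
    have h3 : 1 - (r2 F (a : ℤ) ((a + h : ℕ) : ℤ) p : ℝ) / p ≤ 1 := by
      have : 0 ≤ (r2 F (a : ℤ) ((a + h : ℕ) : ℤ) p : ℝ) / p := by positivity
      linarith
    have h5 : (1 - (r2 F (a : ℤ) ((a + h : ℕ) : ℤ) p : ℝ) / p) / (1 - 1 / (p : ℝ)) ^ 2 ≤ 4 := by
      rw [div_le_iff₀ (by linarith)]
      linarith
    have h6 : 0 ≤ (1 - (r2 F (a : ℤ) ((a + h : ℕ) : ℤ) p : ℝ) / p) / (1 - 1 / (p : ℝ)) ^ 2 :=
      div_nonneg h2 (by linarith)
    rw [lf]
    nlinarith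
  refine (sum_le_sum this).trans ?_
  rw [sum_const, card_range, nsmul_eq_mul]

/-- the divisor weight -/
noncomputable def wt (K : ℝ) (S : Finset ℕ) (h : ℕ) : ℝ :=
  ∏ p ∈ S, (1 + if p ∣ h then K / (p : ℝ) else 0)

theorem prod_sq_le (K : ℝ) (hK : 0 ≤ K) (w : ℕ) :
    ∏ p ∈ pz w, (1 + K / (p : ℝ) ^ 2) ≤ Real.exp (2 * K) := by
  have h3 : ∏ p ∈ pz w, (1 + K / (p : ℝ) ^ 2) ≤ Real.exp (∑ p ∈ pz w, K / (p : ℝ) ^ 2) := by
    rw [Real.exp_sum]
    refine prod_le_prod (fun p _ => by positivity) fun p _ => ?_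
    have := Real.add_one_le_exp (K / (p : ℝ) ^ 2)
    linarith
  refine h3.trans (Real.exp_le_exp.2 ?_)
  have h4 : ∑ p ∈ pz w, K / (p : ℝ) ^ 2 ≤ ∑ p ∈ Ioo 0 (w + 1), K / (p : ℝ) ^ 2 := by
    refine sum_le_sum_of_subset_of_nonneg (fun p hp => ?_) fun _ _ _ => by positivity
    have h5 := mem_pz.1 hp
    rw [mem_Ioo]
    exact ⟨h5.2.pos, by omega⟩
  refine h4.trans ?_
  have h5 := sum_Ioo_inv_sq_le (α := ℝ) 0 (w + 1)
  have h6 : ∑ p ∈ Ioo 0 (w + 1), K / (p : ℝ) ^ 2 = K * ∑ p ∈ Ioo 0 (w + 1), ((p : ℝ) ^ 2)⁻¹ := by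
    rw [mul_sum]
    rfl
  rw [h6]
  norm_num at h5
  calc K * ∑ p ∈ Ioo 0 (w + 1), ((p : ℝ) ^ 2)⁻¹ ≤ K * 2 := by gcongr
    _ = 2 * K := by ring

/-- the mean of the divisor weight -/
theorem sum_wt (K : ℝ) (hK : 0 ≤ K) (S : Finset ℕ) (hS : ∀ p ∈ S, p.Prime) :
    ∀ H : ℕ, ∑ h ∈ Icc 1 H, wt K S h ≤ H * ∏ p ∈ S, (1 + K / (p : ℝ) ^ 2) := by
  classical
  induction S using Finset.induction_on with
  | empty =>
    intro H
    simp [wt]
  | insert q S hq ih =>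
    intro H
    have hS' : ∀ p ∈ S, p.Prime := fun p hp => hS p (mem_insert_of_mem hp)
    have hqp : q.Prime := hS q (mem_insert_self _ _)
    have hq0 : (0 : ℝ) < q := by exact_mod_cast hqp.pos
    have ih' := ih hS'
    have hwt0 : ∀ h, 0 ≤ wt K S h := fun h => prod_nonneg fun p _ => by
      split_ifs <;> positivity
    have h1 : ∀ h, wt K (insert q S) h = wt K S h + K / q * (if q ∣ h then wt K S h else 0) := by
      intro h
      rw [wt, prod_insert hq, ← wt]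
      split_ifs <;> ring
    rw [sum_congr rfl fun h _ => h1 h, sum_add_distrib, ← mul_sum, ← sum_filter]
    -- the multiples of `q`
    have h2 : ∑ h ∈ (Icc 1 H).filter (fun h => q ∣ h), wt K S h = ∑ k ∈ Icc 1 (H / q), wt K S k := by
      symm
      refine sum_bij (fun k _ => q * k) ?_ ?_ ?_ ?_
      · intro k hk
        rw [mem_Icc] at hk
        rw [mem_filter, mem_Icc]
        refine ⟨⟨Nat.mul_pos hqp.pos hk.1, ?_⟩, dvd_mul_right _ _⟩
        calc q * k ≤ q * (H / q) := Nat.mul_le_mul_left _ hk.2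
          _ ≤ H := Nat.mul_div_le _ _
      · intro k _ k' _ h
        exact Nat.eq_of_mul_eq_mul_left hqp.pos h
      · intro h hh
        rw [mem_filter, mem_Icc] at hh
        obtain ⟨⟨h3, h4⟩, k, rfl⟩ := hh
        refine ⟨k, ?_, rfl⟩
        rw [mem_Icc]
        constructor
        · rcases Nat.eq_zero_or_pos k with h5 | h5
          · rw [h5, mul_zero] at h3
            omega
          · exact h5
        · rw [Nat.le_div_iff_mul_le hqp.pos, mul_comm]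
          exact h4
      · intro k _
        refine prod_congr rfl fun p hp => ?_
        have h3 : p ∣ q * k ↔ p ∣ k := by
          refine Nat.Coprime.dvd_mul_left ?_
          rw [Nat.coprime_primes (hS' p hp) hqp]
          rintro rfl
          exact hq hp
        simp only [h3]
    rw [h2, prod_insert hq]
    have h3 := ih' H
    have h4 := ih' (H / q)
    have h5 : ((H / q : ℕ) : ℝ) ≤ H / q := Nat.cast_div_le
    have h6 : 0 ≤ ∏ p ∈ S, (1 + K / (p : ℝ) ^ 2) := prod_nonneg fun p _ => by positivity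
    have h7 : K / q * ∑ k ∈ Icc 1 (H / q), wt K S k ≤ K / q * (H / q * ∏ p ∈ S, (1 + K / (p : ℝ) ^ 2)) := by
      refine mul_le_mul_of_nonneg_left (h4.trans ?_) (by positivity)
      exact mul_le_mul_of_nonneg_right h5 h6
    calc ∑ h ∈ Icc 1 H, wt K S h + K / q * ∑ k ∈ Icc 1 (H / q), wt K S k
        ≤ H * ∏ p ∈ S, (1 + K / (p : ℝ) ^ 2) + K / q * (H / q * ∏ p ∈ S, (1 + K / (p : ℝ) ^ 2)) :=
          add_le_add h3 h7
      _ = _ := by
          field_simp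

/-- the sum over a period -/
theorem period_bound (F : ℤ[X]) (hl : F.leadingCoeff ≠ 0) (hd : 1 ≤ F.natDegree) (h w : ℕ) :
    ∑ a ∈ range (∏ p ∈ pz w, p), (g2 F (a : ℤ) ((a + h : ℕ) : ℤ) w) ^ 2 ≤
      (∏ p ∈ pz w, p : ℕ) * ((16 ^ F.leadingCoeff.natAbs * Real.exp (2 * (64 * F.natDegree))) *
        wt (64 * F.natDegree) (pz w) h) := by
  classical
  have hSp : ∀ p ∈ pz w, p.Prime := fun p hp => (mem_pz.1 hp).2
  have h1 : ∀ a : ℕ, (g2 F (a : ℤ) ((a + h : ℕ) : ℤ) w) ^ 2 = ∏ p ∈ pz w, lf F h p a := by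
    intro a
    unfold g2 lf
    rw [Vz, prod_pow, prod_div_distrib, prod_pow]
  simp only [h1]
  rw [crt_prod (fun p n => lf F h p n)
    (fun p n => by
      have := r2_per F h p n
      simp only [lf] at this ⊢
      rw [this]) (pz w) hSp]
  set l := F.leadingCoeff.natAbs with hld
  have h2 : ∏ p ∈ pz w, ∑ n ∈ range p, lf F h p n ≤
      ∏ p ∈ pz w, ((p : ℝ) * ((if p ≤ l then 16 else 1) * ((1 + 64 * F.natDegree / (p : ℝ) ^ 2) *
        (1 + if p ∣ h then 64 * F.natDegree / (p : ℝ) else 0)))) := by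
    refine prod_le_prod (fun p _ => sum_nonneg fun n _ => lf_nonneg F h p n) fun p hp => ?_
    have hp' := hSp p hp
    have k1 : (1 : ℝ) ≤ 1 + 64 * F.natDegree / (p : ℝ) ^ 2 := by
      have : 0 ≤ 64 * (F.natDegree : ℝ) / (p : ℝ) ^ 2 := by positivity
      linarith
    have k2 : (1 : ℝ) ≤ 1 + if p ∣ h then 64 * F.natDegree / (p : ℝ) else 0 := by
      have : 0 ≤ if p ∣ h then 64 * (F.natDegree : ℝ) / (p : ℝ) else 0 := by
        split_ifs <;> positivity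
      linarith
    by_cases hpl : p ≤ l
    · rw [if_pos hpl]
      refine (local_trivial F h p hp').trans ?_
      have := one_le_mul_of_one_le_of_one_le k1 k2
      exact mul_le_mul_of_nonneg_left (by linarith) (Nat.cast_nonneg _)
    · rw [if_neg hpl, one_mul]
      exact local_bound F hl hd h p hp' (by omega)
  refine h2.trans ?_
  rw [prod_mul_distrib, prod_mul_distrib, prod_mul_distrib]
  push_cast
  refine mul_le_mul_of_nonneg_left ?_ (prod_nonneg fun p _ => Nat.cast_nonneg _)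
  have hwt0 : 0 ≤ wt (64 * F.natDegree) (pz w) h := prod_nonneg fun p _ => by
    split_ifs <;> positivity
  have h16 : ∏ p ∈ pz w, (if p ≤ l then (16 : ℝ) else 1) ≤ 16 ^ l := by
    rw [prod_ite, prod_const, prod_const_one, mul_one]
    refine pow_le_pow_right₀ (by norm_num) ?_
    calc #(filter (fun p => p ≤ l) (pz w)) ≤ #(Icc 1 l) := by
          refine card_le_card fun p hp => ?_
          rw [mem_filter] at hp
          rw [mem_Icc]
          exact ⟨(hSp p hp.1).one_le, hp.2⟩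
      _ = l := by rw [Nat.card_Icc]; omega
  have h3 := prod_sq_le (64 * F.natDegree) (by positivity) w
  calc (∏ p ∈ pz w, (if p ≤ l then (16 : ℝ) else 1)) * ((∏ p ∈ pz w, (1 + 64 * (F.natDegree : ℝ) / (p : ℝ) ^ 2)) *
        ∏ p ∈ pz w, (1 + if p ∣ h then 64 * (F.natDegree : ℝ) / (p : ℝ) else 0))
      ≤ 16 ^ l * (Real.exp (2 * (64 * F.natDegree)) * wt (64 * F.natDegree) (pz w) h) := by
        refine mul_le_mul h16 ?_ ?_ (by positivity)
        · exact mul_le_mul_of_nonneg_right h3 hwt0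
        · exact mul_nonneg (prod_nonneg fun p _ => by positivity) hwt0
    _ = _ := by ring

theorem sq2 (F : ℤ[X]) (hl : F.leadingCoeff ≠ 0) (hd : 1 ≤ F.natDegree) : S_SQ2 F := by
  intro E
  obtain ⟨c, hc, hlow⟩ := Pool.Agent.N792.Shp.V1_lower
  have hlim : Tendsto (fun N : ℕ => Real.log (N : ℝ)) atTop atTop :=
    Real.tendsto_log_atTop.comp (tendsto_natCast_atTop_atTop (R := ℝ))
  obtain ⟨N₀, hN₀⟩ := eventually_atTop.1 (hlim.eventually_ge_atTop 1000)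
  set K : ℝ := 1 + 2 * E / c with hK
  have hK1 : 1 ≤ K := by
    rw [hK]
    have : 0 ≤ 2 * (E : ℝ) / c := by positivity
    linarith
  obtain ⟨D, hD⟩ : ∃ D : ℝ, D = 64 * F.natDegree := ⟨_, rfl⟩
  have hD0 : 0 ≤ D := by rw [hD]; positivity
  obtain ⟨B, hB⟩ : ∃ B : ℝ, B = 16 ^ F.leadingCoeff.natAbs * Real.exp (2 * D) := ⟨_, rfl⟩
  have he1 : (1 : ℝ) ≤ Real.exp (2 * D) := Real.one_le_exp (by positivity)
  have hB1 : 1 ≤ B := by
    have h2 : (1 : ℝ) ≤ 16 ^ F.leadingCoeff.natAbs := one_le_pow₀ (by norm_num)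
    rw [hB]
    nlinarith
  refine ⟨K ^ 4 * (2 * B * Real.exp (2 * D)), ?_, N₀ + 1, ?_⟩
  · have h2 : (1 : ℝ) ≤ K ^ 4 := one_le_pow₀ hK1
    have h3 : (1 : ℝ) ≤ 2 * B * Real.exp (2 * D) := by nlinarith
    exact one_le_mul_of_one_le_of_one_le h2 h3
  intro A hA w hw2 hw H
  have hL := hN₀ A (by omega)
  set L := Real.log (A : ℝ) with hLd
  have hA0 : (0 : ℝ) < A := by exact_mod_cast (by omega : 0 < A)
  set T := ⌊L / 8⌋₊ with hT
  have hT1 : (T : ℝ) ≤ L / 8 := Nat.floor_le (by linarith)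
  have hT2 : L / 8 - 1 < T := Nat.sub_one_lt_floor _
  have hT3 : 100 ≤ T := by
    have : (100 : ℝ) < T := by linarith
    exact_mod_cast this.le
  have hVV : ∀ z, Vz z = Pool.Agent.N792.V1 z := fun z => rfl
  -- the ratio of the Mertens products
  obtain ⟨w0, hw0, hw0T, hw0w, hR⟩ : ∃ w0 : ℕ, 2 ≤ w0 ∧ w0 ≤ T ∧ w0 ≤ w ∧ Vz w0 ≤ K * Vz w := by
    rcases le_or_gt w T with h | h
    · refine ⟨w, hw2, h, le_rfl, ?_⟩
      have := Vz_pos w
      nlinarith
    · refine ⟨T, by omega, le_rfl, h.le, ?_⟩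
      rw [hVV, hVV]
      have h1 := Pool.Agent.N792.V1_le T (by omega)
      have h2 := hlow w (by omega)
      have hlT : 0 < Real.log T := Real.log_pos (by exact_mod_cast (by omega : 1 < T))
      have hlw : 0 < Real.log w := Real.log_pos (by exact_mod_cast (by omega : 1 < w))
      have h3 : Real.log w ≤ E * Real.log L := by
        have h4 := Real.log_le_log (by exact_mod_cast (by omega : 0 < w)) hw
        rw [Real.log_pow] at h4
        exact h4
      have h4 : Real.log L ≤ 2 * Real.log T := by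
        have h5 : L ≤ (T : ℝ) ^ 2 := by nlinarith
        have h6 := Real.log_le_log (by linarith) h5
        rw [Real.log_pow] at h6
        exact_mod_cast h6
      have h5 : 1 / Real.log T ≤ K * (c / Real.log w) := by
        rw [div_le_iff₀ hlT]
        have h6 : K * (c / Real.log w) * Real.log T = K * c * Real.log T / Real.log w := by ring
        rw [h6, le_div_iff₀ hlw, one_mul]
        have h7 : K * c = c + 2 * E := by
          rw [hK]
          field_simp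
        rw [h7]
        have h8 : (E : ℝ) * Real.log L ≤ E * (2 * Real.log T) := by gcongr
        have h9 : 0 ≤ c * Real.log T := by positivity
        linarith
      have h6 : K * (c / Real.log w) ≤ K * Pool.Agent.N792.V1 w :=
        mul_le_mul_of_nonneg_left h2 (by linarith)
      linarith
  -- the pointwise comparison
  have hV0 : 0 < Vz w0 := Vz_pos w0
  have hVw : 0 < Vz w := Vz_pos w
  have hg0 : ∀ (a b : ℤ) (z : ℕ), 0 ≤ g2 F a b z := fun a b z =>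
    div_nonneg (prod_nonneg' (Q F a b) 0 z) (sq_nonneg _)
  have hpt : ∀ a b : ℤ, (g2 F a b w) ^ 2 ≤ K ^ 4 * (g2 F a b w0) ^ 2 := by
    intro a b
    have e0 : K ^ 4 * (g2 F a b w0) ^ 2 = (K ^ 2 * g2 F a b w0) ^ 2 := by ring
    rw [e0]
    refine pow_le_pow_left₀ (hg0 a b w) ?_ 2
    have h1 := prod_anti (Q F a b) 0 hw0w
    have h2 : (Vz w)⁻¹ ≤ K * (Vz w0)⁻¹ := by
      rw [← div_eq_mul_inv, inv_eq_one_div, div_le_div_iff₀ hVw hV0, one_mul]
      exact hR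
    have h3 : ((Vz w)⁻¹) ^ 2 ≤ (K * (Vz w0)⁻¹) ^ 2 :=
      pow_le_pow_left₀ (inv_nonneg.2 hVw.le) h2 2
    unfold g2 r2
    calc (∏ p ∈ pz w, (1 - (rho (Q F a b) 0 p : ℝ) / p)) / Vz w ^ 2
        = (∏ p ∈ pz w, (1 - (rho (Q F a b) 0 p : ℝ) / p)) * ((Vz w)⁻¹) ^ 2 := by
          rw [inv_pow, div_eq_mul_inv]
      _ ≤ (∏ p ∈ pz w0, (1 - (rho (Q F a b) 0 p : ℝ) / p)) * (K * (Vz w0)⁻¹) ^ 2 :=
          mul_le_mul h1 h3 (by positivity) (prod_nonneg' (Q F a b) 0 w0)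
      _ = _ := by
          rw [mul_pow, inv_pow, div_eq_mul_inv]
          ring
  set W := ∏ p ∈ pz w0, p with hW
  have hW0 : 0 < W := prod_pos fun p hp => (mem_pz.1 hp).2.pos
  have hW4 : W ≤ 4 ^ w0 := by
    have h1 := primorial_le_four_pow w0
    refine le_trans (le_of_eq ?_) h1
    rw [hW, primorial]
    refine prod_congr ?_ fun _ _ => rfl
    ext p
    rw [mem_pz, mem_filter, mem_range]
    constructor
    · rintro ⟨h, hp⟩
      exact ⟨by omega, hp⟩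
    · rintro ⟨h, hp⟩
      exact ⟨by omega, hp⟩
  have hWA : W ≤ A := by
    have h1 : ((4 ^ w0 : ℕ) : ℝ) ≤ A := by
      push_cast
      have h2 : (4 : ℝ) ^ w0 = Real.exp (w0 * Real.log 4) := by
        rw [mul_comm, Real.exp_mul, Real.exp_log (by norm_num), Real.rpow_natCast]
      have h20 : (A : ℝ) = Real.exp L := by rw [hLd, Real.exp_log hA0]
      rw [h2, h20]
      refine Real.exp_le_exp.2 ?_
      have h3 : Real.log 4 ≤ 2 := by
        have : Real.log 4 = 2 * Real.log 2 := by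
          rw [show (4 : ℝ) = 2 ^ 2 by norm_num, Real.log_pow]
          norm_num
        have := Real.log_two_lt_d9
        linarith
      have h4 : (w0 : ℝ) ≤ L / 8 := le_trans (by exact_mod_cast hw0T) hT1
      have h5 : 0 ≤ Real.log 4 := Real.log_nonneg (by norm_num)
      calc (w0 : ℝ) * Real.log 4 ≤ L / 8 * 2 := by gcongr
        _ ≤ L := by linarith
    exact_mod_cast (le_trans (by exact_mod_cast hW4 : (W : ℝ) ≤ ((4 ^ w0 : ℕ) : ℝ)) h1)
  have hWr : (0 : ℝ) < W := by exact_mod_cast hW0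
  have hper : ∀ h : ℕ, Function.Periodic (fun a : ℕ => (g2 F (a : ℤ) ((a + h : ℕ) : ℤ) w0) ^ 2) W := by
    intro h a
    have : g2 F ((a + W : ℕ) : ℤ) ((a + W + h : ℕ) : ℤ) w0 = g2 F (a : ℤ) ((a + h : ℕ) : ℤ) w0 := by
      rw [g2, g2]
      congr 1
      refine prod_congr rfl fun p hp => ?_
      obtain ⟨k, hk⟩ := dvd_prod_of_mem (fun p => p) hp
      have h1 : r2 F ((a + k * p : ℕ) : ℤ) ((a + k * p + h : ℕ) : ℤ) p =
          r2 F (a : ℤ) ((a + h : ℕ) : ℤ) p := ((r2_per F h p).nat_mul k) a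
      have h2 : a + W = a + k * p := by rw [hW, hk, mul_comm]
      rw [h2, h1]
    simp only
    rw [this]
  have hmain : ∀ h : ℕ, ∑ a ∈ Icc 1 A, (g2 F (a : ℤ) ((a + h : ℕ) : ℤ) w) ^ 2 ≤
      K ^ 4 * (2 * B * A) * wt D (pz w0) h := by
    intro h
    have h1 := sum_Icc_le _ (fun a => sq_nonneg _) W A hW0 hWA (hper h)
    have h2 := period_bound F hl hd h w0
    rw [← hW, ← hD, ← hB] at h2
    have h3 : 0 ≤ K ^ 4 := by positivity
    calc ∑ a ∈ Icc 1 A, (g2 F (a : ℤ) ((a + h : ℕ) : ℤ) w) ^ 2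
        ≤ ∑ a ∈ Icc 1 A, K ^ 4 * (g2 F (a : ℤ) ((a + h : ℕ) : ℤ) w0) ^ 2 :=
          sum_le_sum fun a _ => hpt _ _
      _ = K ^ 4 * ∑ a ∈ Icc 1 A, (g2 F (a : ℤ) ((a + h : ℕ) : ℤ) w0) ^ 2 := by rw [mul_sum]
      _ ≤ K ^ 4 * (2 * A / W * ∑ a ∈ range W, (g2 F (a : ℤ) ((a + h : ℕ) : ℤ) w0) ^ 2) :=
          mul_le_mul_of_nonneg_left h1 h3
      _ ≤ K ^ 4 * (2 * A / W * (W * (B * wt D (pz w0) h))) :=
          mul_le_mul_of_nonneg_left (mul_le_mul_of_nonneg_left h2 (by positivity)) h3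
      _ = _ := by
          field_simp
  have hsum := sum_wt D hD0 (pz w0) (fun p hp => (mem_pz.1 hp).2) H
  have hsq := prod_sq_le D hD0 w0
  calc ∑ h ∈ Icc 1 H, ∑ a ∈ Icc 1 A, (g2 F (a : ℤ) ((a + h : ℕ) : ℤ) w) ^ 2
      ≤ ∑ h ∈ Icc 1 H, K ^ 4 * (2 * B * A) * wt D (pz w0) h := sum_le_sum fun h _ => hmain h
    _ = K ^ 4 * (2 * B * A) * ∑ h ∈ Icc 1 H, wt D (pz w0) h := by rw [mul_sum]
    _ ≤ K ^ 4 * (2 * B * A) * (H * Real.exp (2 * D)) := by
        refine mul_le_mul_of_nonneg_left (hsum.trans ?_) (by positivity)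
        exact mul_le_mul_of_nonneg_left hsq (Nat.cast_nonneg _)
    _ = _ := by ring

end Run7.h973.PR
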